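import Pool.Agent.Run7.h4.VS.Bounds

/-!
# The string tension at polynomially large `β`: interface (vortices)

`SU(N)` lattice gauge theory on `Z/2m x Z/2m' x (Z/l)²` with the flux `k`; all constants are
polynomial in `l`. The minimal actions `SF k P0 Q0 l i` of the vortices are those of
`Run7.h4.VS.Defs`.
-/

open MeasureTheory Matrix Filter Topology
open Run7.h4.YM Run7.h4.VS

namespace Run7.h182.QS

noncomputable section

/-- frames and labels (see `Run7.h4.VS.Fra`), with constants at most `D` -/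
def Ky {N k : ℕ} [NeZero N] (hζ : IsPrimitiveRoot (om N k) N) (P0 Q0 : SU N) (l : ℕ) [NeZero l]
    (D : ℕ) : Prop :=
  ∃ (F : FC N l → Fib l → SU N) (lab : FC N l → (Fib l → SU N) → FC N l → ZMod N) (C : ℝ),
    Fra hζ P0 Q0 F lab C ∧ C ≤ D ∧ 1 + 3456 * (l : ℝ) ^ 2 * C ^ 2 ≤ D ∧
    ∀ (m : ℕ) (u : LC N l) (t x : ℕ), cN k m u t x < (D : ℝ)⁻¹ → chN lab m u t x = 0

/-- KY: `D` is polynomial in `l`. From `tA1`, `tA2`, `Run7.h182.VS.{FR, LK}`,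
`Run7.h4.VS.exists_fra`, `Fra.good` (all their constants are explicit). -/
def S_KY : Prop := ∀ (N k : ℕ) [NeZero N] (hζ : IsPrimitiveRoot (om N k) N) (P0 Q0 : SU N),
  Std N k hζ P0 Q0 → ∃ C q : ℕ, 1 ≤ C ∧ ∀ (l : ℕ) [NeZero l], Ky hζ P0 Q0 l (C * l ^ q)

/-- COMB2: combinatorics of the bad cells, effective: if the energy of all squares of side `κ D`
is at most `B` and the total charge is seen by `c`, then some rectangle of sides at most `κ D`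
with a good ring of energy at most `ε / D` has a charge which is seen by `c`. (The proof of
`Pool.Agent.Run7.h897.CO.comb`, with `θ = min(1, ε) / (4 D)`, `R = κ' D - 1`, `κ = 4 κ'`.) -/
def S_COMB2 : Prop := ∀ (N : ℕ) [NeZero N] (B ε : ℝ), 0 < ε → ∃ κ : ℕ, 1 ≤ κ ∧
  ∀ (c D : ℕ), 1 ≤ D → ∀ (n L : ℕ) [NeZero n] [NeZero L], κ * D ≤ n → κ * D ≤ L →
    ∀ (e : ZMod n → ZMod L → ℝ) (q : ZMod n → ZMod L → ZMod N), (∀ t x, 0 ≤ e t x) →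
    (∀ t x, e t x < (D : ℝ)⁻¹ → q t x = 0) →
    (∀ (s : ZMod n) (r : ZMod L), ∑ t ∈ Finset.range (κ * D), ∑ x ∈ Finset.range (κ * D),
      e (s + t) (r + x) ≤ B) →
    (c : ZMod N) * (∑ t, ∑ x, q t x) ≠ 0 →
    ∃ (s : ZMod n) (r : ZMod L) (a b : ℕ), 1 ≤ a ∧ 1 ≤ b ∧ a ≤ κ * D ∧ b ≤ κ * D ∧
      (∀ p ∈ ring a b, e (s + p.1) (r + p.2) < (D : ℝ)⁻¹) ∧
      D * ∑ p ∈ ring a b, e (s + p.1) (r + p.2) ≤ ε ∧
      (c : ZMod N) * (∑ t ∈ Finset.range a, ∑ x ∈ Finset.range b, q (s + t) (r + x)) ≠ 0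

/-- AB: bounds for the actions of the vortices, uniform in `l` (from `Run7.h4.DC`, since `SF` is
the limit of the minimal actions, `Fra.lim` and `action2_AT` as in `Run7.h4.VS.bounds`) -/
def S_AB : Prop := ∀ (N k : ℕ) [NeZero N], 2 ≤ N → Nat.Coprime k N →
  ∀ (hζ : IsPrimitiveRoot (om N k) N) (P0 Q0 : SU N), Std N k hζ P0 Q0 →
  ∃ A B : ℝ, 0 < A ∧ ∀ (l : ℕ) [NeZero l] (i : ℕ), SF k P0 Q0 l i ≤ B ∧
    (¬ N ∣ i → A ≤ SF k P0 Q0 l i)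

/-- BALL: the measure of small balls (from `Run7.h630.MQ.S_E1`) -/
def S_BALL : Prop := ∀ (N : ℕ) [NeZero N] [MeasurableSpace (SU N)] [BorelSpace (SU N)]
  (μ : Measure (SU N)) [IsProbabilityMeasure μ] [μ.IsHaarMeasure],
  ∃ c : ℝ, 0 < c ∧ ∀ η : ℝ, 0 < η → η ≤ 1 → c * η ^ (2 * N ^ 2) ≤ ball μ η

/-- UP: the upper bound at polynomially large `β` (from KY, COMB2, AB, BALL, and
`Run7.h4.VS.{square_of, Zi_le}`; compare `Run7.h4.VS.upperU`): with `K = κ D`, `η² ~ ε / (l² K²)`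
one needs `4 m m' ball(η)^(-16 l² K²) ≤ exp (β ε / 2)`. -/
def S_UP : Prop := ∀ (N k : ℕ) [NeZero N], 2 ≤ N → Nat.Coprime k N →
  ∀ (hζ : IsPrimitiveRoot (om N k) N) (P0 Q0 : SU N), Std N k hζ P0 Q0 →
  ∀ [MeasurableSpace (SU N)] [BorelSpace (SU N)] (μ : Measure (SU N)) [IsProbabilityMeasure μ]
  [μ.IsHaarMeasure] (ε : ℝ), 0 < ε → ∃ C p : ℕ, 1 ≤ C ∧ ∀ (l : ℕ) [NeZero l] (c : ℕ) (S : ℝ),
    0 < S → (∀ i : ℕ, ¬ N ∣ c * i → S ≤ SF k P0 Q0 l i) → ∀ β : ℝ, (C : ℝ) * l ^ p ≤ β →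
    ∀ (m m' : ℕ) [NeZero m] [NeZero m'], C * l ^ p ≤ m → C * l ^ p ≤ m' → (m : ℝ) ≤ β ^ 2 →
      (m' : ℝ) ≤ β ^ 2 → ∀ i : ZMod N, (c : ZMod N) * i ≠ 0 →
      Zi μ (2 * m) (2 * m') l k i β ≤ Real.exp (-(β * (S - ε))) * ZZ μ m m' l k β

/-- INS2: an almost flat block can be replaced by a block with a vortex with the same boundary,
effective. With the frames of KY: the charges of the cells vanish, so the labels are the
differences of `c : (t, x) ↦ ZMod N`; `w` is `u` on the boundary and `v` in the frames (times the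
centre elements `c`) inside; only the cells of the ring change their energy, by at most
`48 l² N ρ`, `ρ = 6 D √δ` (`cN_lip`). -/
def S_INS2 : Prop := ∀ (N k : ℕ) [NeZero N] (hζ : IsPrimitiveRoot (om N k) N) (P0 Q0 : SU N)
  (l : ℕ) [NeZero l] (D : ℕ), 1 ≤ D → Ky hζ P0 Q0 l D → ∀ (i a b : ℕ) (v : LC N l), 1 ≤ a →
  1 ≤ b → Framed P0 Q0 a b v → ∀ δ : ℝ, 0 < δ → δ ≤ (D : ℝ)⁻¹ → ∀ u : LC N l,
    (∀ t, t < a → ∀ x, x < b → cN k 0 u t x < δ) →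
    ∃ w : LC N l, AgreeB a b u w ∧ EN k (corner i) a b w ≤ EN k (corner i) a b v +
      1000 * N * l ^ 2 * D * (a * b) * Real.sqrt δ

/-- NM: almost minimisers of polynomial size. Take a configuration on a large torus with the flux
`i` and energy at most `T + ε` (`Fra.lim`, `Sm`), apply COMB2 to it and `Fra.key` (the framed
configuration constructed in its proof) to the rectangle. -/
def S_NM : Prop := ∀ (N k : ℕ) [NeZero N], 2 ≤ N → Nat.Coprime k N →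
  ∀ (hζ : IsPrimitiveRoot (om N k) N) (P0 Q0 : SU N), Std N k hζ P0 Q0 →
  ∀ ε : ℝ, 0 < ε → ∃ C q : ℕ, 1 ≤ C ∧ ∀ (l : ℕ) [NeZero l] (c : ℕ) (T : ℝ),
    (∃ i : ℕ, ¬ N ∣ c * i ∧ SF k P0 Q0 l i = T) →
    ∃ (i a b : ℕ) (v : LC N l), ¬ N ∣ c * i ∧ 1 ≤ a ∧ 1 ≤ b ∧ a ≤ C * l ^ q ∧ b ≤ C * l ^ q ∧
      Framed P0 Q0 a b v ∧ EN k (corner i) a b v ≤ T + ε

/-- LO: the lower bound at polynomially large `β` (from KY, NM, INS2, BALL and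
`Run7.h4.VS.{Zi_ge, gdb_low}`, `Run7.h4.YM.bad_bound`; compare `Run7.h4.VS.lowerL`; use the
logarithms of the small ball probabilities, not the probabilities, in the thresholds). -/
def S_LO : Prop := ∀ (N k : ℕ) [NeZero N], 2 ≤ N → Nat.Coprime k N →
  ∀ (hζ : IsPrimitiveRoot (om N k) N) (P0 Q0 : SU N), Std N k hζ P0 Q0 →
  ∀ [MeasurableSpace (SU N)] [BorelSpace (SU N)] (μ : Measure (SU N)) [IsProbabilityMeasure μ]
  [μ.IsHaarMeasure] (ε : ℝ), 0 < ε → ∃ C p : ℕ, 1 ≤ C ∧ ∀ (l : ℕ) [NeZero l] (c : ℕ) (T : ℝ),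
    (∃ i : ℕ, ¬ N ∣ c * i ∧ SF k P0 Q0 l i = T) →
    ∃ i : ℕ, ¬ N ∣ c * i ∧ ∀ β : ℝ, (C : ℝ) * l ^ p ≤ β →
    ∀ (m m' : ℕ) [NeZero m] [NeZero m'], C * l ^ p ≤ m → C * l ^ p ≤ m' →
      Real.exp (-(β * (T + ε))) * ZZ μ m m' l k β ≤ Zi μ (2 * m) (2 * m') l k (i : ZMod N) β

/-- the bounds for the partition functions at polynomially large `β` in the final definitions;
`S l j` is the limit of the minimal action with the fluxes `k` and `j` -/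
structure Bnd2 (N k : ℕ) [NeZero N] [MeasurableSpace (SU N)] (μ : Measure (SU N))
    (S : ℕ → ℕ → ℝ) : Prop where
  congr : ∀ l j j' : ℕ, (j : ZMod N) = (j' : ZMod N) → S l j = S l j'
  lim : ∀ (l : ℕ) [NeZero l] (j : ℕ), Tendsto (fun p : ℕ × ℕ =>
    sInf (Set.range fun U : Link (p.1 + 1) (p.2 + 1) l → SU N => action2 k j U)) atTop (𝓝 (S l j))
  ab : ∃ A B : ℝ, 0 < A ∧ ∀ (l : ℕ) [NeZero l] (j : ℕ), S l j ≤ B ∧ (¬ N ∣ j → A ≤ S l j)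
  up : ∀ ε : ℝ, 0 < ε → ∃ C p : ℕ, 1 ≤ C ∧ ∀ (l : ℕ) [NeZero l] (c : ℕ) (T : ℝ), 0 < T →
    (∀ j, ¬ N ∣ c * j → T ≤ S l j) → ∀ β : ℝ, (C : ℝ) * l ^ p ≤ β →
    ∀ (m m' : ℕ) [NeZero m] [NeZero m'], C * l ^ p ≤ m → C * l ^ p ≤ m' → (m : ℝ) ≤ β ^ 2 →
      (m' : ℝ) ≤ β ^ 2 → ∀ j : ℕ, ¬ N ∣ c * j →
      Zf (2 * m) (2 * m') l μ k j β ≤ Real.exp (-(β * (T - ε))) * Zf (2 * m) (2 * m') l μ k 0 β
  lo : ∀ ε : ℝ, 0 < ε → ∃ C p : ℕ, 1 ≤ C ∧ ∀ (l : ℕ) [NeZero l] (c : ℕ) (T : ℝ),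
    (∃ j : ℕ, ¬ N ∣ c * j ∧ S l j = T) → ∃ j : ℕ, ¬ N ∣ c * j ∧ ∀ β : ℝ, (C : ℝ) * l ^ p ≤ β →
    ∀ (m m' : ℕ) [NeZero m] [NeZero m'], C * l ^ p ≤ m → C * l ^ p ≤ m' →
      Real.exp (-(β * (T + ε))) * Zf (2 * m) (2 * m') l μ k 0 β ≤ Zf (2 * m) (2 * m') l μ k j β

/-- BND: the translation (from AB, UP, LO; compare `Run7.h4.VS.bounds`) -/
def S_BND : Prop := ∀ (N k : ℕ) [NeZero N], 2 ≤ N → Nat.Coprime k N →
  ∀ [MeasurableSpace (SU N)] [BorelSpace (SU N)] (μ : Measure (SU N)) [IsProbabilityMeasure μ]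
  [μ.IsHaarMeasure], ∃ S : ℕ → ℕ → ℝ, Bnd2 N k μ S

end

end Run7.h182.QS
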