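import Pool.Agent.Run7.h182.QS.Iface
import Pool.Agent.Run7.h4.VS.Vin
import Pool.Agent.Run7.h4.VS.Low

/-!
# The string tension at polynomially large `β`: piece INS2 (quantitative insertion)
-/

open MeasureTheory Matrix Filter Topology
open Run7.h4.YM Run7.h4.VS

namespace Run7.h182.QS

set_option linter.unusedSectionVars false
set_option linter.unusedVariables false

noncomputable section

variable {N l : ℕ} [NeZero N] [NeZero l] {k : ℕ} {hζ : IsPrimitiveRoot (om N k) N}
  {P0 Q0 : SU N} {F : FC N l → Fib l → SU N}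
  {lab : FC N l → (Fib l → SU N) → FC N l → ZMod N} {C : ℝ}

open Classical in
/-- `w` over the boundary line, `v` inside -/
def v3 (a b : ℕ) (v w : LC N l) : LC N l := fun i t x =>
  if i = 0 then (if x = 0 ∨ x = b then w 0 t x else v 0 t x) else
  if i = 1 then (if t = 0 ∨ t = a then w 1 t x else v 1 t x) else
  if i = 2 then (if bdy a b t x then w 2 t x else v 2 t x) else
  (if bdy a b t x then w 3 t x else v 3 t x)

theorem v3_0 (a b : ℕ) (v w : LC N l) (t x : ℕ) :
    v3 a b v w 0 t x = if x = 0 ∨ x = b then w 0 t x else v 0 t x := rfl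

theorem v3_1 (a b : ℕ) (v w : LC N l) (t x : ℕ) :
    v3 a b v w 1 t x = if t = 0 ∨ t = a then w 1 t x else v 1 t x := rfl

open Classical in
theorem v3_2 (a b : ℕ) (v w : LC N l) (t x : ℕ) :
    v3 a b v w 2 t x = if bdy a b t x then w 2 t x else v 2 t x := rfl

open Classical in
theorem v3_3 (a b : ℕ) (v w : LC N l) (t x : ℕ) :
    v3 a b v w 3 t x = if bdy a b t x then w 3 t x else v 3 t x := rfl

/-- back to the original frames -/
def v4 (hζ : IsPrimitiveRoot (om N k) N) (F : FC N l → Fib l → SU N)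
    (lab : FC N l → (Fib l → SU N) → FC N l → ZMod N) (a b : ℕ) (v u : LC N l) : LC N l :=
  gau (fun t x y => (gb F a b u t x y)⁻¹) (cen hζ (fun t x => -pb0 lab b u t x)
    (fun t x => -pb1 lab a u t x) (v3 a b v (wB hζ F lab a b u)))

theorem agree_v4 (a b : ℕ) (v u : LC N l) : AgreeB a b u (v4 hζ F lab a b v u) := by
  have hz : ∀ (z : ZMod N) (g : SU N), zc hζ (-z) * (zc hζ z * g) = g := fun z g => by
    rw [← mul_assoc, ← zc_add, neg_add_cancel, zc_zero, one_mul]
  refine ⟨fun t x hb => ?_, fun t ht => ?_, fun x hx => ?_⟩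
  · unfold v4
    rw [gau_f, cen_f]
    have h1 : fsN (v3 a b v (wB hζ F lab a b u)) t x =
        gF (gb F a b u t x) (fsN u t x) := by
      unfold fsN
      rw [v3_2, v3_3, if_pos hb, if_pos hb]
      rfl
    rw [h1]
    unfold gF
    refine Prod.ext (funext fun y => ?_) (funext fun y => ?_)
    · simp only; group
    · simp only; group
  · have key : ∀ x, (x = 0 ∨ x = b) → v4 hζ F lab a b v u 0 t x = u 0 t x := by
      intro x hx
      unfold v4
      rw [gau_0, cen_0, v3_0, if_pos hx]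
      unfold wB
      rw [cen_0, gau_0]
      funext y
      unfold gL
      beta_reduce
      rw [hz]
      group
    exact ⟨key 0 (Or.inl rfl), key b (Or.inr rfl)⟩
  · have key : ∀ t, (t = 0 ∨ t = a) → v4 hζ F lab a b v u 1 t x = u 1 t x := by
      intro t ht
      unfold v4
      rw [gau_1, cen_1, v3_1, if_pos ht]
      unfold wB
      rw [cen_1, gau_1]
      funext y
      unfold gL
      beta_reduce
      rw [hz]
      group
    exact ⟨key 0 (Or.inl rfl), key a (Or.inr rfl)⟩

theorem cN_v4 (a b : ℕ) (v u : LC N l) (m t x : ℕ) :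
    cN k (curlp lab a b u t x + (m : ZMod N)).val (v4 hζ F lab a b v u) t x =
      cN k m (v3 a b v (wB hζ F lab a b u)) t x := by
  unfold v4
  rw [cN_gau, cN_cen hζ (m' := m)]
  rw [ZMod.natCast_val, ZMod.cast_id]
  unfold curlp
  ring

/-- inner cells -/
theorem cN_v3_inner {a b t x : ℕ} (v w : LC N l) (m : ℕ) (h1 : 0 < t)
    (h2 : t + 1 < a) (h3 : 0 < x) (h4 : x + 1 < b) :
    cN k m (v3 a b v w) t x = cN k m v t x := by
  have f : ∀ t' x', (t' = t ∨ t' = t + 1) → (x' = x ∨ x' = x + 1) →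
      fsN (v3 a b v w) t' x' = fsN v t' x' := by
    intro t' x' h5 h6
    have nb : ¬ bdy a b t' x' := by
      intro h7
      unfold bdy at h7
      omega
    unfold fsN
    rw [v3_2, v3_3, if_neg nb, if_neg nb]
  have g0 : ∀ x', (x' = x ∨ x' = x + 1) → v3 a b v w 0 t x' = v 0 t x' := by
    intro x' h6
    rw [v3_0, if_neg (by omega)]
  have g1 : ∀ t', (t' = t ∨ t' = t + 1) → v3 a b v w 1 t' x = v 1 t' x := by
    intro t' h6
    rw [v3_1, if_neg (by omega)]
  unfold cN
  rw [f t x (by simp) (by simp), f (t + 1) x (by simp) (by simp), f t (x + 1) (by simp) (by simp),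
    f (t + 1) (x + 1) (by simp) (by simp), g0 x (by simp), g0 (x + 1) (by simp), g1 t (by simp),
    g1 (t + 1) (by simp)]

/-- cells at the boundary -/
theorem cN_v3 (h : Fra hζ P0 Q0 F lab C) {a b t x : ℕ} (m : ℕ) (ht : t < a) (hx : x < b)
    {v : LC N l} (hv : Framed P0 Q0 a b v) (u : LC N l) {E : ℝ} (hE : cN k 0 u t x ≤ E) :
    cN k m (v3 a b v (wB hζ F lab a b u)) t x ≤ cN k m v t x +
      48 * (l : ℝ) ^ 2 * N * (6 * C * Real.sqrt E) := by
  have hE0 : 0 ≤ E := (cN_nonneg hζ 0 u t x).trans hE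
  obtain ⟨v1, v2, v3', v4', k1, k2, k3, k4, -⟩ := cN_parts hζ 0 u t x hE
  have hC := h.pos
  have hη : 0 ≤ 6 * C * Real.sqrt E := by positivity
  -- fibres
  have f : ∀ t' x', VL k (fsN u t' x') ≤ 4 * E → ∀ y,
      dd (v3 a b v (wB hζ F lab a b u) 2 t' x' y) (v 2 t' x' y) ≤ 6 * C * Real.sqrt E ∧
      dd (v3 a b v (wB hζ F lab a b u) 3 t' x' y) (v 3 t' x' y) ≤ 6 * C * Real.sqrt E := by
    intro t' x' hV y
    rw [v3_2, v3_3]
    by_cases hb : bdy a b t' x'
    · rw [if_pos hb, if_pos hb]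
      have e := h.frE hE0 hV y
      have e1 : gF (F (fsN u t' x')) (fsN u t' x') = fsN (wB hζ F lab a b u) t' x' := by
        unfold wB
        rw [cen_f, gau_f, gb_pos u hb]
      rw [e1, ← hv.fib t' x' hb] at e
      exact e
    · rw [if_neg hb, if_neg hb, dd_self, dd_self]
      exact ⟨hη, hη⟩
  -- the links
  have zz : ∀ (z : ZMod N) (g : SU N), dd (zc hζ (-z) * g) 1 = dd g (zc hζ z) := by
    intro z g
    have e3 := dd_mul_left g (zc hζ z) (zc hζ z)⁻¹
    rw [inv_mul_cancel] at e3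
    rw [zc_neg, e3]
  have g0 : ∀ x', (x' = x ∨ x' = x + 1) → VL k (fsN u t x') ≤ 4 * E →
      VL k (fsN u (t + 1) x') ≤ 4 * E → KL (fsN u t x') (u 0 t x') (fsN u (t + 1) x') ≤ 2 * E →
      ∀ y, dd (v3 a b v (wB hζ F lab a b u) 0 t x' y) (v 0 t x' y) ≤ 6 * C * Real.sqrt E := by
    intro x' hx' h1 h2 h3 y
    rw [v3_0]
    by_cases hb : x' = 0 ∨ x' = b
    · rw [if_pos hb]
      have b1 : bdy a b t x' := by unfold bdy; omega
      have b2 : bdy a b (t + 1) x' := by unfold bdy; omega
      have e1 : wB hζ F lab a b u 0 t x' y =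
          zc hζ (-lab (fsN u t x') (u 0 t x') (fsN u (t + 1) x')) *
          gL (F (fsN u t x')) (F (fsN u (t + 1) x')) (u 0 t x') y := by
        unfold wB
        rw [cen_0, gau_0, gb_pos u b1, gb_pos u b2]
        unfold pb0
        rw [if_pos hb]
      have e2 : v 0 t x' y = 1 := by
        rcases hb with hb | hb
        · rw [hb]; exact (hv.l0 t ht y).1
        · rw [hb]; exact (hv.l0 t ht y).2
      rw [e1, e2, zz]
      exact h.lkE hE0 h1 h2 h3 y
    · rw [if_neg hb, dd_self]; exact hη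
  have g1 : ∀ t', (t' = t ∨ t' = t + 1) → VL k (fsN u t' x) ≤ 4 * E →
      VL k (fsN u t' (x + 1)) ≤ 4 * E → KL (fsN u t' x) (u 1 t' x) (fsN u t' (x + 1)) ≤ 2 * E →
      ∀ y, dd (v3 a b v (wB hζ F lab a b u) 1 t' x y) (v 1 t' x y) ≤ 6 * C * Real.sqrt E := by
    intro t' ht' h1 h2 h3 y
    rw [v3_1]
    by_cases hb : t' = 0 ∨ t' = a
    · rw [if_pos hb]
      have b1 : bdy a b t' x := by unfold bdy; omega
      have b2 : bdy a b t' (x + 1) := by unfold bdy; omega
      have e1 : wB hζ F lab a b u 1 t' x y =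
          zc hζ (-lab (fsN u t' x) (u 1 t' x) (fsN u t' (x + 1))) *
          gL (F (fsN u t' x)) (F (fsN u t' (x + 1))) (u 1 t' x) y := by
        unfold wB
        rw [cen_1, gau_1, gb_pos u b1, gb_pos u b2]
        unfold pb1
        rw [if_pos hb]
      have e2 : v 1 t' x y = 1 := by
        rcases hb with hb | hb
        · rw [hb]; exact (hv.l1 x hx y).1
        · rw [hb]; exact (hv.l1 x hx y).2
      rw [e1, e2, zz]
      exact h.lkE hE0 h1 h2 h3 y
    · rw [if_neg hb, dd_self]; exact hη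
  exact cN_lip hζ m (v3 a b v (wB hζ F lab a b u)) v t x (f t x v1)
    (f (t + 1) x v2) (f t (x + 1) v3') (f (t + 1) (x + 1) v4')
    (g0 x (Or.inl rfl) v1 v2 k1) (g0 (x + 1) (Or.inr rfl) v3' v4' k2) (g1 t (Or.inl rfl) v1 v3' k3)
    (g1 (t + 1) (Or.inr rfl) v2 v4' k4)

theorem t_INS2 : S_INS2 := by
  intro N k _ hζ P0 Q0 l _ D hD1 hky i a b v ha hb hv δ hδ hδD u hu
  obtain ⟨F, lab, C, hF, hCD, -, hch⟩ := hky
  have hcurl : (∑ t ∈ Finset.range a, ∑ x ∈ Finset.range b, curlp lab a b u t x) = 0 := by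
    rw [sum_curlp a b (fun _ _ => 0) u]
    refine Finset.sum_eq_zero fun t ht => Finset.sum_eq_zero fun x hx => ?_
    rw [Finset.mem_range] at ht hx
    rw [hch 0 u t x ((hu t ht x hx).trans_le hδD)]
    simp
  have hcor : (∑ t ∈ Finset.range a, ∑ x ∈ Finset.range b, ((corner i t x : ℕ) : ZMod N)) =
      (i : ZMod N) := by
    rw [Finset.sum_eq_single 0, Finset.sum_eq_single 0]
    · unfold corner; simp
    · intro x _ hx
      unfold corner; simp [hx]
    · intro h; exact absurd (Finset.mem_range.mpr (by omega)) h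
    · intro t _ ht
      refine Finset.sum_eq_zero fun x _ => ?_
      unfold corner; simp [ht]
    · intro h; exact absurd (Finset.mem_range.mpr (by omega)) h
  have hi : (∑ t ∈ Finset.range a, ∑ x ∈ Finset.range b,
      (curlp lab a b u t x + ((corner i t x : ℕ) : ZMod N))) = (i : ZMod N) := by
    simp only [Finset.sum_add_distrib]
    rw [hcurl, hcor, zero_add]
  obtain ⟨w', h1, h2⟩ := move (N := N) (l := l) (k := k) hζ a b ha hb
    (fun t x => curlp lab a b u t x + ((corner i t x : ℕ) : ZMod N))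
    (v4 hζ F lab a b v u) i hi
  have h0 := agree_v4 (k := k) (hζ := hζ) (F := F) (lab := lab) a b v u
  refine ⟨w', ⟨fun t x hb' => ?_, fun t ht => ?_, fun x hx => ?_⟩, ?_⟩
  · rw [h1.fib t x hb', h0.fib t x hb']
  · rw [(h1.l0 t ht).1, (h1.l0 t ht).2]; exact h0.l0 t ht
  · rw [(h1.l1 x hx).1, (h1.l1 x hx).2]; exact h0.l1 x hx
  · rw [h2]
    have hC := hF.pos
    have hs : 0 ≤ Real.sqrt δ := Real.sqrt_nonneg δ
    have hN0 : (0 : ℝ) ≤ N := Nat.cast_nonneg N
    have hcell : ∀ t ∈ Finset.range a, ∀ x ∈ Finset.range b,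
        cN k (curlp lab a b u t x + ((corner i t x : ℕ) : ZMod N)).val
          (v4 hζ F lab a b v u) t x ≤ cN k (corner i t x) v t x +
          1000 * N * l ^ 2 * D * Real.sqrt δ := by
      intro t ht x hx
      rw [Finset.mem_range] at ht hx
      rw [cN_v4]
      have e := cN_v3 hF (corner i t x) ht hx hv u (hu t ht x hx).le
      refine e.trans ?_
      have e1 : 48 * (l : ℝ) ^ 2 * N * (6 * C * Real.sqrt δ) ≤
          48 * (l : ℝ) ^ 2 * N * (6 * D * Real.sqrt δ) := by
        apply mul_le_mul_of_nonneg_left _ (by positivity)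
        apply mul_le_mul_of_nonneg_right _ hs
        linarith
      have e2 : (0 : ℝ) ≤ N * l ^ 2 * D * Real.sqrt δ := by positivity
      linarith
    calc ∑ t ∈ Finset.range a, ∑ x ∈ Finset.range b,
          cN k (curlp lab a b u t x + ((corner i t x : ℕ) : ZMod N)).val
            (v4 hζ F lab a b v u) t x
        ≤ ∑ t ∈ Finset.range a, ∑ x ∈ Finset.range b, (cN k (corner i t x) v t x +
          1000 * N * l ^ 2 * D * Real.sqrt δ) :=
          Finset.sum_le_sum fun t ht => Finset.sum_le_sum fun x hx => hcell t ht x hx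
      _ = EN k (corner i) a b v + 1000 * N * l ^ 2 * D * (a * b) * Real.sqrt δ := by
          unfold EN
          simp only [Finset.sum_add_distrib, Finset.sum_const, Finset.card_range, nsmul_eq_mul]
          ring

end

end Run7.h182.QS
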