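import Pool.Agent.Run7.h182.QS.Sig
import Pool.Agent.Run7.h182.QS.INS2
import Pool.Agent.Run7.h4.QS.UP
import Pool.Agent.Run7.h4.QS.NM
import Pool.Agent.Run7.h4.QS.SM
import Pool.Agent.Run7.h105.QS.COMB2
import Pool.Agent.Run7.h370.QS.LO
import Pool.Agent.Run7.h882.QS.BND
import Pool.Agent.Run7.h882.QS.RATE
import Pool.Agent.Run7.h882.QS.WIL
import Pool.Agent.Run7.h897.QS.Soft
import Pool.Agent.Run7.h897.QU.All

/-!
# The string tension at polynomially large `β`: assembly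
-/

open MeasureTheory Matrix Filter Topology
open Pool.Agent.Run7.h897.TW (Ens ZS ZT sig)
open Pool.Agent.Run7.h897.ST
open Pool.Agent.Run7.h871.TC (wE)
open Run7.h4.YM (Link)
open Run7.h4.VS (action2 Zf Bnd)

namespace Run7.h182.QS

set_option linter.unusedSectionVars false
set_option linter.unusedVariables false

noncomputable section

theorem bnd2 : S_BND :=
  Run7.h882.QS.t_BND Run7.h4.QS.t_AB (Run7.h4.QS.t_UP Run7.h105.QS.t_COMB2)
    (Run7.h370.QS.t_LO Run7.h4.QS.t_KY (Run7.h4.QS.t_NM Run7.h105.QS.t_COMB2) t_INS2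
      Run7.h4.QS.t_BALL)

theorem soft2 : S_SOFT :=
  Pool.Agent.Run7.h897.QS.t_SOFT Run7.h630.QC.q13 Run7.h630.QC.q14 Run7.h4.QS.t_SM

theorem rate2 : S_RATE := Run7.h882.QS.t_RATE soft2

theorem SoftAt.mono {N l : ℕ} {G : Type*} [Group G] [NeZero N] [NeZero l] [MeasurableSpace G]
    {μ : Measure G} {w : Ens N l G} {m m' : ℝ} {A A' : ℕ} (h : SoftAt μ w m A) (hm : m' ≤ m)
    (hA : A ≤ A') : SoftAt μ w m' A' := by
  intro χ p q _ _ hp hq
  obtain ⟨h1, h2⟩ := h χ p q (hA.trans hp) (hA.trans hq)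
  refine ⟨h1, h2.trans ?_⟩
  apply mul_le_mul_of_nonneg_left _ (by positivity)
  apply Real.exp_le_exp.2
  apply neg_le_neg
  apply mul_le_mul_of_nonneg_right _ (Nat.cast_nonneg _)
  linarith

theorem arsinh_le_self {y : ℝ} (hy : 0 ≤ y) : Real.arsinh y ≤ y := by
  have h1 : 0 ≤ Real.arsinh y := Real.arsinh_nonneg_iff.2 hy
  have h2 := Real.self_le_sinh_iff.2 h1
  rwa [Real.sinh_arsinh] at h2

theorem mass_le (N l : ℕ) [NeZero N] [NeZero l] :
    2 * Real.arsinh (Real.sin (Real.pi / (l * N))) ≤ 2 * Real.pi / N / l := by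
  have hN : (1 : ℝ) ≤ N := by exact_mod_cast NeZero.one_le (n := N)
  have hl : (1 : ℝ) ≤ l := by exact_mod_cast NeZero.one_le (n := l)
  have hx0 : 0 ≤ Real.pi / (l * N) := by positivity
  have hx1 : Real.pi / (l * N) ≤ Real.pi := by
    apply div_le_self Real.pi_pos.le
    nlinarith
  have h1 : 0 ≤ Real.sin (Real.pi / (l * N)) := Real.sin_nonneg_of_nonneg_of_le_pi hx0 hx1
  have h2 := arsinh_le_self h1
  have h3 := Real.sin_le hx0
  have h4 : 2 * Real.pi / N / l = 2 * (Real.pi / (l * N)) := by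
    field_simp
  rw [h4]
  linarith

theorem mass_pos {N : ℕ} (l : ℕ) [NeZero l] (hN : 2 ≤ N) :
    0 < 2 * Real.arsinh (Real.sin (Real.pi / (l * N))) := by
  have hNr : (2 : ℝ) ≤ N := by exact_mod_cast hN
  have hl1 : (1 : ℝ) ≤ l := by exact_mod_cast NeZero.one_le (n := l)
  have h4 : 0 < Real.sin (Real.pi / (l * N)) := by
    refine Real.sin_pos_of_pos_of_lt_pi (by positivity) ?_
    rw [div_lt_iff₀ (by positivity)]
    have : (2 : ℝ) ≤ l * N := by nlinarith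
    nlinarith [Real.pi_pos]
  have h5 := Real.arsinh_pos_iff.mpr h4
  linarith

variable {N : ℕ} [NeZero N] [MeasurableSpace (S4 N)] [BorelSpace (S4 N)] [MeasurableSpace (S6 N)]
  [BorelSpace (S6 N)]

/-- the good theories -/
def Good (μ : Measure (S4 N)) (S : ℕ → ℕ → ℝ) (k : ℕ) (θ ε : ℝ) (A l : ℕ) [NeZero l] (β : ℝ) :
    Prop :=
  SoftAt (mu6 μ) (wE N l k β) (θ * (2 * Real.arsinh (Real.sin (Real.pi / (l * N))))) A ∧
    ∀ c : ℕ, ¬ N ∣ c → 0 < sig (mu6 μ) (wE N l k β) (ch N c) ∧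
      ∃ T : ℝ, 0 < T ∧ IsLeast {s | ∃ j : ℕ, ¬ N ∣ c * j ∧ s = S l j} T ∧
        |-Real.log (sig (mu6 μ) (wE N l k β) (ch N c)) / β - T| ≤ ε

lemma ch_mod (c : ℕ) : ch N (c % N) = ch N c := by
  unfold ch
  rw [ZMod.natCast_mod]

lemma dvd_mod_mul (c j : ℕ) : N ∣ c % N * j ↔ N ∣ c * j := by
  rw [Nat.dvd_iff_mod_eq_zero, Nat.dvd_iff_mod_eq_zero, Nat.mod_mul_mod]

/-- all `l` -/
theorem all_l (k : ℕ) (hN : 2 ≤ N) (hk : Nat.Coprime k N) (μ : Measure (S4 N))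
    [IsProbabilityMeasure μ] [μ.IsHaarMeasure] : ∃ S : ℕ → ℕ → ℝ,
    (∀ (l : ℕ) [NeZero l] (j : ℕ), Tendsto (fun p : ℕ × ℕ =>
      sInf (Set.range fun U : Link (p.1 + 1) (p.2 + 1) l → S4 N => action2 k j U)) atTop
        (𝓝 (S l j))) ∧
    (∃ A B : ℝ, 0 < A ∧ ∀ (l : ℕ) [NeZero l] (j : ℕ), S l j ≤ B ∧ (¬ N ∣ j → A ≤ S l j)) ∧
    ∀ θ ε : ℝ, 0 < θ → θ < 1 → 0 < ε → ∃ C p : ℕ, 1 ≤ C ∧ ∀ (l : ℕ) [NeZero l] (β : ℝ),
      (C : ℝ) * l ^ p ≤ β → Good μ S k θ ε (C * l ^ p) l β := by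
  obtain ⟨S, hS⟩ := bnd2 N k hN hk μ
  obtain ⟨A0, B0, hA0, hAB⟩ := hS.ab
  refine ⟨S, hS.lim, ⟨A0, B0, hA0, hAB⟩, fun θ ε hθ0 hθ1 hε => ?_⟩
  have hN0 : (0 : ℝ) < N := by exact_mod_cast NeZero.pos N
  have hπ := Real.pi_pos
  obtain ⟨p1, l1, h1⟩ := soft2 N k hN hk μ S hS (θ * (2 * Real.pi / N)) (by positivity) (by
    have : 0 < 2 * Real.pi / N := by positivity
    nlinarith)
  obtain ⟨p2, l2, h2⟩ := rate2 N k hN hk μ S hS ε hε
  have hleast : ∀ l c : ℕ, ¬ N ∣ c → ∃ T, 0 < T ∧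
      IsLeast {s | ∃ j : ℕ, ¬ N ∣ c * j ∧ s = S (l + 1) j} T := by
    intro l c hc
    obtain ⟨T, hT⟩ := least (hS.congr (l + 1)) hc
    refine ⟨T, ?_, hT⟩
    obtain ⟨⟨j0, hj0, hTj⟩, -⟩ := hT
    rw [hTj]
    exact hA0.trans_le ((hAB (l + 1) j0).2 fun h => hj0 (h.mul_left c))
  have hleast' : ∀ (l : ℕ) [NeZero l] (c : ℕ), ¬ N ∣ c → ∃ T, 0 < T ∧
      IsLeast {s | ∃ j : ℕ, ¬ N ∣ c * j ∧ s = S l j} T := by
    intro l _ c hc
    obtain ⟨l', rfl⟩ := Nat.exists_eq_succ_of_ne_zero (NeZero.ne l)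
    exact hleast l' c hc
  -- one `l`
  have h3 : ∀ l : ℕ, ∃ C : ℕ, ∀ [NeZero l] (β : ℝ), (C : ℝ) ≤ β → Good μ S k θ ε C l β := by
    intro l
    rcases Nat.eq_zero_or_pos l with h0 | h0
    · subst h0
      exact ⟨0, fun {h} => absurd rfl h.out⟩
    haveI : NeZero l := ⟨by omega⟩
    obtain ⟨S', hS', g1, g2⟩ := joint_sig (N := N) l k hN hk μ
    have hSS : S' = S l := funext fun j => tendsto_nhds_unique (hS'.lim j) (hS.lim l j)
    subst hSS
    have hm := mass_pos (N := N) l hN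
    obtain ⟨A, β1, hA1, hA⟩ := g1 (θ * (2 * Real.arsinh (Real.sin (Real.pi / (l * N)))))
      (by positivity) (by nlinarith)
    have g3 : ∀ᶠ β : ℝ in atTop, ∀ c ∈ Finset.range N, ¬ N ∣ c →
        0 < sig (mu6 μ) (wE N l k β) (ch N c) ∧
        ∃ T : ℝ, 0 < T ∧ IsLeast {s | ∃ j : ℕ, ¬ N ∣ c * j ∧ s = S l j} T ∧
          |-Real.log (sig (mu6 μ) (wE N l k β) (ch N c)) / β - T| ≤ ε := by
      rw [Filter.eventually_all_finset]
      intro c _
      by_cases hc : N ∣ c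
      · exact Eventually.of_forall fun β h => absurd hc h
      obtain ⟨T, hT0, hT, g4, g5⟩ := g2 c hc
      filter_upwards [g4, g5.eventually (Metric.closedBall_mem_nhds T hε)] with β g6 g7 _
      refine ⟨g6, T, hT0, hT, ?_⟩
      rwa [Real.dist_eq] at g7
    obtain ⟨β2, hβ2⟩ := eventually_atTop.1 g3
    obtain ⟨n1, hn1⟩ := exists_nat_ge β1
    obtain ⟨n2, hn2⟩ := exists_nat_ge β2
    refine ⟨max A (max n1 n2), fun {_} β hβ => ?_⟩
    have k1 : (n1 : ℝ) ≤ ((max A (max n1 n2) : ℕ) : ℝ) := by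
      exact_mod_cast (le_max_left n1 n2).trans (le_max_right A _)
    have k2 : (n2 : ℝ) ≤ ((max A (max n1 n2) : ℕ) : ℝ) := by
      exact_mod_cast (le_max_right n1 n2).trans (le_max_right A _)
    refine ⟨(hA β (hn1.trans (k1.trans hβ))).mono le_rfl (le_max_left _ _), fun c hc => ?_⟩
    have k3 := hβ2 β (hn2.trans (k2.trans hβ)) (c % N)
      (Finset.mem_range.2 (Nat.mod_lt _ (NeZero.pos N)))
      (fun h => hc ((Nat.dvd_mod_iff dvd_rfl).1 h))
    rw [ch_mod] at k3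
    simp only [dvd_mod_mul] at k3
    exact k3
  choose B hB using h3
  obtain ⟨C, hC⟩ : ∃ C, C = ∑ l ∈ Finset.range (max l1 l2), B l + 1 := ⟨_, rfl⟩
  obtain ⟨p, hp⟩ : ∃ p, p = max p1 p2 := ⟨_, rfl⟩
  have hC1 : 1 ≤ C := by omega
  refine ⟨C, p, hC1, fun l _ β hβ => ?_⟩
  have hC1r : (1 : ℝ) ≤ C := by exact_mod_cast hC1
  have hln : 1 ≤ l := NeZero.one_le
  have hlr : (1 : ℝ) ≤ l := by exact_mod_cast hln
  have hl0 : (0 : ℝ) < l := by linarith
  have hpn : 1 ≤ l ^ p := Nat.one_le_pow _ _ hln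
  have hpr : (1 : ℝ) ≤ (l : ℝ) ^ p := one_le_pow₀ hlr
  have hβ1 : 1 ≤ β := by
    refine le_trans ?_ hβ
    nlinarith
  by_cases hl : l < max l1 l2
  · have k1 : B l ≤ C := by
      rw [hC]
      exact (Finset.single_le_sum (f := B) (fun _ _ => Nat.zero_le _)
        (Finset.mem_range.2 hl)).trans (Nat.le_succ _)
    have k2 : (B l : ℝ) ≤ C := by exact_mod_cast k1
    obtain ⟨g1, g2⟩ := hB l β (k2.trans ((le_mul_of_one_le_right (by positivity) hpr).trans hβ))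
    refine ⟨g1.mono le_rfl ?_, g2⟩
    calc B l ≤ C * 1 := by rw [mul_one]; exact k1
      _ ≤ C * l ^ p := Nat.mul_le_mul_left C hpn
  · push Not at hl
    have hll1 : l1 ≤ l := (le_max_left _ _).trans hl
    have hll2 : l2 ≤ l := (le_max_right _ _).trans hl
    have hβp : (l : ℝ) ^ p ≤ β := le_trans (le_mul_of_one_le_left (by positivity) hC1r) hβ
    have hβp1 : (l : ℝ) ^ p1 ≤ β :=
      le_trans (pow_le_pow_right₀ hlr (by rw [hp]; exact le_max_left _ _)) hβp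
    have hβp2 : (l : ℝ) ^ p2 ≤ β :=
      le_trans (pow_le_pow_right₀ hlr (by rw [hp]; exact le_max_right _ _)) hβp
    refine ⟨(h1 l hll1 β hβp1).mono ?_ ?_, fun c hc => ?_⟩
    · have := mul_le_mul_of_nonneg_left (mass_le N l) hθ0.le
      rwa [← mul_div_assoc] at this
    · calc l ^ p1 ≤ l ^ p := Nat.pow_le_pow_right hln (by rw [hp]; exact le_max_left _ _)
        _ = 1 * l ^ p := (one_mul _).symm
        _ ≤ C * l ^ p := Nat.mul_le_mul_right _ hC1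
    · obtain ⟨T, hT0, hT⟩ := hleast' l c hc
      obtain ⟨g1, g2⟩ := h2 l hll2 β hβp2 c T hc hT
      have hpos : 0 < sig (mu6 μ) (wE N l k β) (ch N c) := (Real.exp_pos _).trans_le g1
      refine ⟨hpos, T, hT0, hT, ?_⟩
      have hβ0 : 0 < β := by linarith
      have e1 := Real.log_le_log (Real.exp_pos _) g1
      have e2 := Real.log_le_log hpos g2
      rw [Real.log_exp] at e1 e2
      rw [abs_le]
      constructor
      · rw [le_sub_iff_add_le, le_div_iff₀ hβ0]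
        linarith
      · rw [sub_le_iff_le_add, div_le_iff₀ hβ0]
        linarith

end

end Run7.h182.QS
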