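import Pool.Agent.Run7.h182.QS.Iface
import Pool.Agent.Run7.h630.QC.Iface2
import Pool.Agent.Run7.h897.ST.Out
import Pool.Agent.Run7.h182.WL.Def

/-!
# The string tension at polynomially large `β`: interface (tension and area law)
-/

open MeasureTheory Matrix Filter Topology
open Pool.Agent.Run7.h897.TW (Ens ZS ZT sig)
open Pool.Agent.Run7.h897.ST (S4 S6 mu6 ch)
open Pool.Agent.Run7.h871.TC (wE)
open Run7.h4.YM Run7.h630.WL Run7.h182.WL

namespace Run7.h182.QS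

noncomputable section

/-- the free energies of the electric fluxes of one theory, with exponentially small errors from
the size `A` on (the body of `Pool.Agent.Run7.h897.ST.Soft`) -/
def SoftAt {N l : ℕ} {G : Type*} [Group G] [NeZero N] [NeZero l] [MeasurableSpace G]
    (μ : Measure G) (w : Ens N l G) (m : ℝ) (A : ℕ) : Prop :=
  ∀ (χ : AddChar (ZMod N) ℂ) (p q : ℕ) [NeZero (2 * p)] [NeZero (2 * q)], A ≤ p → A ≤ q →
    0 < ZS μ w χ (2 * p) (2 * q) ∧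
    |Real.log (ZS μ w χ (2 * p) (2 * q) / ZS μ w 1 (2 * p) (2 * q)) +
      sig μ w χ * (4 * (p * q))| ≤ (p + q) * Real.exp (-(2 * m * (min p q : ℕ)))

/-- SOFT: the law of the electric fluxes at polynomially large `β`. Plan: (1) as Q15 but for all
the scales `a ∈ [A, 2 A]`, `A ~ l log l`: `CrS (mu6 μ) (wE N l k β) a (exp (-(m1 / l) (2 a)))`;
(2) hence (`sector` with `χ = 1`, as in `soft_main`) the free energy of the sector `1` with errors
`exp (-2 (m1 / l) min p q)` at all larger sizes, and so `CrS` at all the scales of `[A', 2 A']`,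
`A' = C l^p`; (3) `Sm` at those scales from `Bnd2.up` (`η = exp (- A β / 2)`), hence `crX` for all
`χ` and the statement as in `soft_main`. -/
def S_SOFT : Prop := ∀ (N k : ℕ) [NeZero N], 2 ≤ N → Nat.Coprime k N →
  ∀ [MeasurableSpace (S4 N)] [BorelSpace (S4 N)] [MeasurableSpace (S6 N)] [BorelSpace (S6 N)]
  (μ : Measure (S4 N)) [IsProbabilityMeasure μ] [μ.IsHaarMeasure] (S : ℕ → ℕ → ℝ),
  Bnd2 N k μ S → ∀ m : ℝ, 0 < m → m < 2 * Real.pi / N →
  ∃ p l₀ : ℕ, ∀ (l : ℕ) [NeZero l], l₀ ≤ l → ∀ β : ℝ, (l : ℝ) ^ p ≤ β →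
    SoftAt (mu6 μ) (wE N l k β) (m / l) (l ^ p)

/-- RATE: the exponent of the string tension at polynomially large `β` (from `SoftAt` at the size
`p ~ (T + 2) (l / m) β` and `Bnd2`, compare `Pool.Agent.Run7.h897.ST.{sig_up, sig_lo}`) -/
def S_RATE : Prop := ∀ (N k : ℕ) [NeZero N], 2 ≤ N → Nat.Coprime k N →
  ∀ [MeasurableSpace (S4 N)] [BorelSpace (S4 N)] [MeasurableSpace (S6 N)] [BorelSpace (S6 N)]
  (μ : Measure (S4 N)) [IsProbabilityMeasure μ] [μ.IsHaarMeasure] (S : ℕ → ℕ → ℝ),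
  Bnd2 N k μ S → ∀ ε : ℝ, 0 < ε → ∃ p l₀ : ℕ, ∀ (l : ℕ) [NeZero l], l₀ ≤ l → ∀ β : ℝ,
    (l : ℝ) ^ p ≤ β → ∀ (c : ℕ) (T : ℝ), ¬ N ∣ c →
    IsLeast {s | ∃ j : ℕ, ¬ N ∣ c * j ∧ s = S l j} T →
      Real.exp (-(β * (T + ε))) ≤ sig (mu6 μ) (wE N l k β) (ch N c) ∧
      sig (mu6 μ) (wE N l k β) (ch N c) ≤ Real.exp (-(β * (T - ε)))

/-- WIL: the area law for one theory (the body of `Pool.Agent.Run7.h897.PC.W0` and of
`Run7.h182.WL.area` for one `β`) -/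
def S_WIL : Prop := ∀ (N l k : ℕ) [NeZero N] [NeZero l], 2 ≤ N → Nat.Coprime k N →
  ∀ [MeasurableSpace (S4 N)] [BorelSpace (S4 N)] [MeasurableSpace (S6 N)] [BorelSpace (S6 N)]
  (μ : Measure (S4 N)) [IsProbabilityMeasure μ] [μ.IsHaarMeasure] (β m : ℝ) (A : ℕ), 0 < m →
  SoftAt (mu6 μ) (wE N l k β) m A →
  (∀ c : ℕ, ¬ N ∣ c → 0 < sig (mu6 μ) (wE N l k β) (ch N c)) →
  ∀ ν : Measure (LinkZ l → S4 N), IsLimit k μ β ν → ∀ c : ℕ, ¬ N ∣ c →
    ∀ (d : ℕ) (ρ : S4 N →* unitaryGroup (Fin d) ℂ), Continuous ρ → Nality ρ c →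
      ∀ (x : SiteZ l) (T R : ℕ), ‖∫ V, trace (ρ (rect V x T R)).1 ∂ν‖ ≤
        d * Real.exp (-(sig (mu6 μ) (wE N l k β) (ch N c) * (T * R)))

end

end Run7.h182.QS
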