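import Pool.Agent.Run7.h182.QS.Iface2
import Pool.Agent.Run7.h897.ST.Joint
import Pool.Agent.Run7.h4.VS.Ratio

/-!
# The string tension at polynomially large `β`: the joint theorem for the fixed tension `sgm`
-/

open MeasureTheory Matrix Filter Topology
open Pool.Agent.Run7.h897.TW (Ens ZS ZT sig Cn ZS_one_pos)
open Pool.Agent.Run7.h897.ST
open Pool.Agent.Run7.h871.TC (wE)
open Run7.h4.YM (Link)
open Run7.h4.VS (action2 Zf Bnd wj boundsJ dens_up dens_lo ratio sig_dens)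

namespace Run7.h182.QS

set_option linter.unusedSectionVars false
set_option linter.unusedVariables false
set_option linter.style.haveILetI false

noncomputable section

variable {N : ℕ} [NeZero N] [MeasurableSpace (S4 N)] [BorelSpace (S4 N)]

/-- the string tension of the charge `c` -/
def sgm (μ : Measure (S4 N)) (l k : ℕ) [NeZero l] (c : ℕ) (β : ℝ) : ℝ :=
  letI : MeasurableSpace (S6 N) := borel _
  sig (mu6 μ) (wE N l k β) (ch N c)

/-- the laws of the electric and magnetic fluxes of one theory -/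
theorem zlaw [MeasurableSpace (S6 N)] [BorelSpace (S6 N)] (μ : Measure (S4 N))
    [IsProbabilityMeasure μ] [μ.IsHaarMeasure] (l k : ℕ) [NeZero l] {β m : ℝ} {A : ℕ}
    (h : SoftAt (mu6 μ) (wE N l k β) m A) (p q : ℕ) [NeZero (2 * p)] [NeZero (2 * q)]
    (hp : A ≤ p) (hq : A ≤ q) :
    (∀ c : ℕ, 0 < Pool.Agent.Run7.h897.ST.Ze (2 * p) (2 * q) l μ k c β ∧
      |Real.log (Pool.Agent.Run7.h897.ST.Ze (2 * p) (2 * q) l μ k c β /
        Pool.Agent.Run7.h897.ST.Ze (2 * p) (2 * q) l μ k 0 β) +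
        sig (mu6 μ) (wE N l k β) (ch N c) * (4 * (p * q))| ≤
          (p + q) * Real.exp (-(2 * m * (min p q : ℕ)))) ∧
    ∀ j : ℕ, |Zf (2 * p) (2 * q) l μ k j β / Zf (2 * p) (2 * q) l μ k 0 β -
      (∑ c ∈ Finset.range N, Real.cos (2 * Real.pi * (c * j) / N) *
        Real.exp (-(sig (mu6 μ) (wE N l k β) (ch N c) * (4 * (p * q))))) /
      ∑ c ∈ Finset.range N, Real.exp (-(sig (mu6 μ) (wE N l k β) (ch N c) * (4 * (p * q))))| ≤
        8 * (p + q) * Real.exp (-(2 * m * (min p q : ℕ))) := by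
  haveI := mu6_prob μ
  haveI := mu6_haar μ
  haveI := right_inv'' (mu6 μ)
  haveI := inv_inv'' (mu6 μ)
  have hN0 : (0 : ℝ) < N := by exact_mod_cast NeZero.pos N
  have hZf : ∀ (a b j : ℕ) [NeZero a] [NeZero b] (β : ℝ), Zf a b l μ k j β =
      ZT (mu6 μ) (wE N l k β) (j : ZMod N) a b := fun a b j _ _ β => Zf_eq μ k j β
  have hZe : ∀ (a b c : ℕ) [NeZero a] [NeZero b] (β : ℝ),
      Pool.Agent.Run7.h897.ST.Ze a b l μ k c β = ZS (mu6 μ) (wE N l k β) (ch N c) a b := by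
    intro a b c _ _ β
    unfold Pool.Agent.Run7.h897.ST.Ze ZS
    rw [sum_zmod']
    simp only [ch_re, hZf]
  obtain ⟨w, hw⟩ : ∃ w, w = wE N l k β := ⟨_, rfl⟩
  have hb : w.Bd := hw ▸ Pool.Agent.Run7.h871.TC.wE_bd β
  have hsy : w.Sy := hw ▸ Pool.Agent.Run7.h871.TC.wE_sy β
  have hcn : Cn w (Pool.Agent.Run7.h871.UP.zc N) := hw ▸ Pool.Agent.Run7.h871.UP.zc_cn β
  have h1 := fun c => h (ch N c) p q hp hq
  simp only [hZe, hZf, Nat.cast_zero]
  beta_reduce at h1 ⊢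
  rw [← hw] at h1 ⊢
  have hz0 : ZS (mu6 μ) w (ch N 0) (2 * p) (2 * q) = ZS (mu6 μ) w 1 (2 * p) (2 * q) := by
    rw [ch_zero]
  have hpos1 : 0 < ZS (mu6 μ) w 1 (2 * p) (2 * q) := ZS_one_pos hb
  refine ⟨fun c => ⟨(h1 c).1, ?_⟩, fun j => ?_⟩
  · rw [hz0]; exact (h1 c).2
  · have e1 := ZT_inv (μ := mu6 μ) (a := 2 * p) (b := 2 * q) hb hsy hcn j
    have e0 := ZT_inv (μ := mu6 μ) (a := 2 * p) (b := 2 * q) hb hsy hcn 0
    simp only [Nat.cast_zero, mul_zero, zero_div, Real.cos_zero, one_mul] at e0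
    rw [e1, e0]
    have h2 := flux_num (N := N) (f := fun c => Real.cos (2 * Real.pi * (c * j) / N))
      (x := fun c => ZS (mu6 μ) w (ch N c) (2 * p) (2 * q) /
        ZS (mu6 μ) w 1 (2 * p) (2 * q))
      (y := fun c => Real.exp (-(sig (mu6 μ) w (ch N c) * (4 * (p * q)))))
      (ε := (p + q) * Real.exp (-(2 * m * (min p q : ℕ))))
      (fun c => Real.abs_cos_le_one _) (fun c => div_pos (h1 c).1 hpos1)
      (fun c => Real.exp_pos _) (by positivity) (fun c => by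
        rw [Real.log_exp, sub_neg_eq_add]
        exact (h1 c).2)
    have e3 : (∑ c ∈ Finset.range N, Real.cos (2 * Real.pi * (c * j) / N) *
        (ZS (mu6 μ) w (ch N c) (2 * p) (2 * q) / ZS (mu6 μ) w 1 (2 * p) (2 * q))) /
        ∑ c ∈ Finset.range N, ZS (mu6 μ) w (ch N c) (2 * p) (2 * q) /
          ZS (mu6 μ) w 1 (2 * p) (2 * q) =
        (∑ c ∈ Finset.range N, Real.cos (2 * Real.pi * (c * j) / N) *
          ZS (mu6 μ) w (ch N c) (2 * p) (2 * q)) /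
        ∑ c ∈ Finset.range N, ZS (mu6 μ) w (ch N c) (2 * p) (2 * q) := by
      simp only [mul_div_assoc']
      rw [← Finset.sum_div, ← Finset.sum_div, div_div_div_cancel_right₀ hpos1.ne']
    rw [e3] at h2
    refine h2.trans (le_of_eq ?_)
    ring

/-- the string tensions for one `l`: the law at large `β`, with the tension `sgm` -/
theorem out_sig [MeasurableSpace (S6 N)] [BorelSpace (S6 N)] (l k : ℕ) [NeZero l] (hN : 2 ≤ N)
    (hk : Nat.Coprime k N) (μ : Measure (S4 N)) [IsProbabilityMeasure μ] [μ.IsHaarMeasure]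
    {S1 : ℝ} (hS1 : 0 < S1) (hU1 : UpZ μ l k 1 S1) :
    (∀ m : ℝ, 0 < m → m < 2 * Real.arsinh (Real.sin (Real.pi / (l * N))) →
      ∃ (A : ℕ) (β0 : ℝ), 1 ≤ A ∧ ∀ β, β0 ≤ β → SoftAt (mu6 μ) (wE N l k β) m A) ∧
    ∀ (c : ℕ) (S : ℝ), 0 < S → (∀ S', 0 < S' → S' < S → UpZ μ l k c S') →
      (∀ S', S < S' → LoZ μ l k c S') →
      (∀ᶠ β in atTop, 0 < sig (mu6 μ) (wE N l k β) (ch N c)) ∧
      Tendsto (fun β => -Real.log (sig (mu6 μ) (wE N l k β) (ch N c)) / β) atTop (𝓝 S) := by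
  haveI := mu6_prob μ
  haveI := mu6_haar μ
  haveI := right_inv'' (mu6 μ)
  haveI := inv_inv'' (mu6 μ)
  have hZf : ∀ (a b j : ℕ) [NeZero a] [NeZero b] (β : ℝ), Zf a b l μ k j β =
      ZT (mu6 μ) (wE N l k β) (j : ZMod N) a b := fun a b j _ _ β => Zf_eq μ k j β
  have hZf0 : ∀ (a b : ℕ) [NeZero a] [NeZero b] (β : ℝ), Zf a b l μ k 0 β =
      ZT (mu6 μ) (wE N l k β) 0 a b := fun a b _ _ β => by
    rw [hZf, Nat.cast_zero]
  have hUR : ∀ (c : ℕ) (S : ℝ), UpZ μ l k c S →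
      UpR (mu6 μ) (fun β => wE N l k β) (ch N c) S := by
    intro c S h C0 hC0
    obtain ⟨M, β0, h0⟩ := h C0 hC0
    refine ⟨M, β0, fun β hβ p q _ _ h1 h2 h3 h4 j hj => ?_⟩
    have h5 := h0 β hβ p q h1 h2 h3 h4 j.val (fun h6 => hj (by
      have := (ch_one_iff (N := N) c j.val).2 h6
      rwa [ZMod.natCast_zmod_val] at this))
    rw [hZf0, hZf, ZMod.natCast_zmod_val] at h5
    exact h5
  have hLR : ∀ (c : ℕ) (S : ℝ), LoZ μ l k c S →
      Lo (mu6 μ) (fun β => wE N l k β) (ch N c) S := by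
    rintro c S ⟨j, hj, M, β0, h0⟩
    refine ⟨(j : ZMod N), fun h6 => hj ((ch_one_iff c j).1 h6), M, β0, fun β hβ p _ h1 => ?_⟩
    have h5 := h0 β hβ p h1
    rw [hZf0, hZf] at h5
    exact h5
  have hχ1 : ∀ j : ZMod N, j ≠ 0 → ch N 1 j ≠ 1 := by
    intro j hj h
    apply hj
    have h1 : ch N 1 ((j.val : ℕ) : ZMod N) = 1 := by rwa [ZMod.natCast_zmod_val]
    rw [ch_one_iff, one_mul] at h1
    have h2 := (ZMod.natCast_eq_zero_iff j.val N).2 h1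
    rwa [ZMod.natCast_zmod_val] at h2
  obtain ⟨m1, m2⟩ := Pool.Agent.Run7.h897.ST.main (k := k) (mu6 μ) hN hk l hχ1 hS1 (hUR 1 S1 hU1)
  refine ⟨fun m hm hmr => ?_, fun c S hS hU hL => ?_⟩
  · obtain ⟨A, β0, hA, h0⟩ := m1 m hm hmr
    exact ⟨A, β0, hA, fun β hβ χ p q _ _ hp hq => h0 β hβ χ p q hp hq⟩
  · exact m2 (ch N c) S hS (fun S' h3 h4 => hUR c S' (hU S' h3 h4))
      (fun S' h3 => hLR c S' (hL S' h3))

/-- the joint theorem for one `l` -/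
theorem joint_sig [MeasurableSpace (S6 N)] [BorelSpace (S6 N)] (l k : ℕ) [NeZero l] (hN : 2 ≤ N)
    (hk : Nat.Coprime k N) (μ : Measure (S4 N)) [IsProbabilityMeasure μ] [μ.IsHaarMeasure] :
    ∃ S : ℕ → ℝ, Bnd N l k μ S ∧
      (∀ m : ℝ, 0 < m → m < 2 * Real.arsinh (Real.sin (Real.pi / (l * N))) →
        ∃ (A : ℕ) (β0 : ℝ), 1 ≤ A ∧ ∀ β, β0 ≤ β → SoftAt (mu6 μ) (wE N l k β) m A) ∧
      ∀ c : ℕ, ¬ N ∣ c → ∃ T : ℝ, 0 < T ∧ IsLeast {s | ∃ j : ℕ, ¬ N ∣ c * j ∧ s = S j} T ∧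
        (∀ᶠ β in atTop, 0 < sig (mu6 μ) (wE N l k β) (ch N c)) ∧
        Tendsto (fun β => -Real.log (sig (mu6 μ) (wE N l k β) (ch N c)) / β) atTop (𝓝 T) := by
  obtain ⟨S, hS⟩ := bnd l k hk μ
  obtain ⟨δ, hδ, hδS⟩ := hS.pos
  have hT : ∀ c : ℕ, ¬ N ∣ c → ∃ T : ℝ, 0 < T ∧ IsLeast {s | ∃ j : ℕ, ¬ N ∣ c * j ∧ s = S j} T ∧
      (∀ S', 0 < S' → S' < T → UpZ μ l k c S') ∧ (∀ S', T < S' → LoZ μ l k c S') := by
    intro c hc
    obtain ⟨T, hT⟩ := least hS.congr hc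
    obtain ⟨⟨j0, hj0, hTj⟩, hmin⟩ := hT
    have hT0 : 0 < T := by
      rw [hTj]
      exact hδ.trans_le (hδS j0 fun h => hj0 (h.mul_left c))
    refine ⟨T, hT0, ⟨⟨j0, hj0, hTj⟩, hmin⟩, fun S' h1 h2 => ?_, fun S' h1 => ?_⟩
    · intro C0 hC0
      obtain ⟨M, hM⟩ := hS.up c T hT0 (fun j hj => hmin ⟨j, hj, rfl⟩) (T - S') (by linarith)
      obtain ⟨β0, hβ0, h⟩ := hM C0 hC0
      refine ⟨max M 1, β0, fun β hβ p q _ _ hp hq hp' hq' j hj => ?_⟩
      haveI : NeZero p := ⟨by have := (le_max_right M 1).trans hp; omega⟩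
      haveI : NeZero q := ⟨by have := (le_max_right M 1).trans hq; omega⟩
      have h3 := h β hβ p q ((le_max_left _ _).trans hp) ((le_max_left _ _).trans hq) hp' hq' j hj
      rw [show β * (T - (T - S')) = S' * β by ring] at h3
      exact h3
    · obtain ⟨β0, M, hβ0, hM, h⟩ := hS.lo j0 (S' - T) (by linarith)
      refine ⟨j0, hj0, M, β0, fun β hβ p _ hp => ?_⟩
      haveI : NeZero p := ⟨by omega⟩
      have h3 := h β hβ p p hp hp
      rw [← hTj, show β * (T + (S' - T)) = S' * β by ring] at h3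
      exact h3
  have h1 : ¬ N ∣ 1 := fun h => by
    have := Nat.le_of_dvd one_pos h
    omega
  obtain ⟨T1, hT1, -, hU1, -⟩ := hT 1 h1
  obtain ⟨hσ1, hσ2⟩ := out_sig l k hN hk μ (half_pos hT1)
    (hU1 (T1 / 2) (half_pos hT1) (by linarith))
  refine ⟨S, hS, hσ1, fun c hc => ?_⟩
  obtain ⟨T, hT0, hl, hU, hL⟩ := hT c hc
  exact ⟨T, hT0, hl, hσ2 c T hT0 hU hL⟩

/-- the law of the fluxes in the form `SoftZ` -/
theorem softZ_sgm (l k : ℕ) [NeZero l] (μ : Measure (S4 N)) [IsProbabilityMeasure μ]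
    [μ.IsHaarMeasure] {m : ℝ}
    (h : letI : MeasurableSpace (S6 N) := borel _
      ∃ (A : ℕ) (β0 : ℝ), 1 ≤ A ∧ ∀ β, β0 ≤ β → SoftAt (mu6 μ) (wE N l k β) m A) :
    SoftZ μ l k (sgm μ l k) m := by
  letI : MeasurableSpace (S6 N) := borel _
  haveI : BorelSpace (S6 N) := ⟨rfl⟩
  obtain ⟨A, β0, hA, h0⟩ := h
  exact ⟨A, β0, hA, fun β hβ p q _ _ hp hq => zlaw μ l k (h0 β hβ) p q hp hq⟩

/-- **The joint theorem with the densities of the vortices and the ratios, for `sgm`.** -/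
theorem joint4_sig (l k : ℕ) [NeZero l] (hN : 2 ≤ N) (hk : Nat.Coprime k N)
    (μ : Measure (S4 N)) [IsProbabilityMeasure μ] [μ.IsHaarMeasure] :
    ∃ (S : ℕ → ℝ) (w : ℕ → ℝ → ℝ),
      (∀ j, Tendsto (fun p : ℕ × ℕ => sInf (Set.range fun U : Link (p.1 + 1) (p.2 + 1) l → S4 N =>
        action2 k j U)) atTop (𝓝 (S j))) ∧
      (∀ᶠ β in atTop, ∀ c : ℕ, sgm μ l k c β = ∑ j ∈ Finset.range N,
        w j β * (1 - Real.cos (2 * Real.pi * (c * j) / N))) ∧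
      (∀ j : ℕ, ¬ N ∣ j → ∀ ε : ℝ, 0 < ε →
        (∀ᶠ β in atTop, |w j β| ≤ Real.exp (-(β * (S j - ε)))) ∧
        ((∀ i i' : ℕ, ¬ N ∣ i → ¬ N ∣ i' → i + i' ≡ j [MOD N] → S j < S i + S i') →
          ∀ᶠ β in atTop, Real.exp (-(β * (S j + ε))) ≤ w j β)) ∧
      ∀ i : ℕ, ¬ N ∣ i → (∀ j : ℕ, ¬ N ∣ j → ¬ j ≡ i [MOD N] → ¬ N ∣ j + i → S i < S j) →
        ∀ c d : ℕ, ¬ N ∣ d * i → Tendsto (fun β => sgm μ l k c β / sgm μ l k d β) atTop
          (𝓝 ((1 - Real.cos (2 * Real.pi * (c * i) / N)) /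
            (1 - Real.cos (2 * Real.pi * (d * i) / N)))) := by
  letI : MeasurableSpace (S6 N) := borel _
  haveI : BorelSpace (S6 N) := ⟨rfl⟩
  obtain ⟨S, hS, h2, h3⟩ := joint_sig (N := N) l k hN hk μ
  obtain ⟨S', hS'⟩ := boundsJ (Run7.h182.VS.tFR Run7.h630.VS.tA1) (Run7.h182.VS.tLK Run7.h630.VS.tA2)
    Pool.Agent.Run7.h897.CO.comb Run7.h630.VS.tINS N l k hk μ
  have hSS : S = S' := funext fun j => tendsto_nhds_unique (hS.lim j) (hS'.lim j)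
  subst hSS
  have hM0 : 0 < 2 * Real.arsinh (Real.sin (Real.pi / (l * N))) := by
    have hNr : (2 : ℝ) ≤ N := by exact_mod_cast hN
    have hl1 : (1 : ℝ) ≤ l := by exact_mod_cast NeZero.one_le (n := l)
    have h4 : 0 < Real.sin (Real.pi / (l * N)) := by
      refine Real.sin_pos_of_pos_of_lt_pi (by positivity) ?_
      rw [div_lt_iff₀ (by positivity)]
      have : (2 : ℝ) ≤ l * N := by nlinarith
      nlinarith [Real.pi_pos]
    have h5 := Real.arsinh_pos_iff.mpr h4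
    linarith
  obtain ⟨m, hm, hmM⟩ := exists_between hM0
  have hsoft := softZ_sgm l k μ (h2 m hm hmM)
  refine ⟨S, wj (sgm μ l k) N, hS.lim, ?_, fun j hj ε hε => ⟨dens_up hk μ hS' hm hsoft hj hε,
    fun hirr => dens_lo hk μ hS' hm hsoft hj hirr hε⟩, fun i hi hmin c d hd =>
      ratio hk μ hS' hm hsoft hi hmin hd⟩
  obtain ⟨β0, hβ0⟩ := sig_dens hm hsoft
  filter_upwards [eventually_ge_atTop β0] with β hβ
  exact hβ0 β hβ

end

end Run7.h182.QS
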